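import Pool.Agent.X22.MO2

/-!
# Tate classes in all codimensions on products of powers of hyperelliptic curves with coefficients in arbitrarily thin families

Nothing is used besides Mathlib in the statement.
-/

set_option autoImplicit false

namespace Pool.Agent.Results.MP_223b32_ag.FewDigitCurvePowers

open Finset Polynomial
open scoped Nat

/-- The polynomial `X ^ n + ∑ v_j X ^ j`. -/
noncomputable def poly (R : Type) [CommRing R] {n : ℕ} (v : Fin n → R) : R[X] := X ^ n + ∑ j, C (v j) * X ^ (j : ℕ)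

/-- The trace `a_p` of the Frobenius on `H ^ 1` of the curve `Y ^ 2 = X ^ n + ∑ m_j X ^ j`, `n` odd, of good reduction at the odd prime `p`: `p` minus the number of the affine points modulo `p`. -/
noncomputable def trace (p : ℕ) {n : ℕ} (m : Fin n → ℕ) : ℤ :=
  p - Nat.card {P : ZMod p × ZMod p // P.2 ^ 2 = (poly (ZMod p) (fun j => (m j : ZMod p))).eval P.1}

/-- The moments of the normal distribution: `μ_k = (k - 1)!! = 1 · 3 · 5 ⋯ (k - 1)` for even `k` and `0` for odd `k`. For `k ≤ 2 g + 1` it is the dimension of the space of the invariants of the group `Sp (2 g)` in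
the `k`-th tensor power of its standard representation. -/
noncomputable def mu (k : ℕ) : ℝ := if Even k then ((k - 1)‼ : ℕ) else 0

/-- The coefficients of the `i`-th polynomial, of degree `2 g_i + 1`: all the coefficients of all the `r` polynomials are numbered by `0, ..., d - 1` with a bijection `e`. -/
def block {r d : ℕ} {g : Fin r → ℕ} (e : (Σ i, Fin (2 * g i + 1)) ≃ Fin d) (m : Fin d → ℕ) (i : Fin r) : Fin (2 * g i + 1) → ℕ :=
  fun j => m (e ⟨i, j⟩)

/-- The sum `∑ w (p) (∏ (a_p (C_i) / √p) ^ k_i - ∏ μ_(k_i)) p ^ (- i τ)` over the odd primes `p ≤ x`; here `C_i` is the curve with the coefficients `block e m i`. The product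
`∏ a_p (C_i) ^ k_i` is the trace of the Frobenius on the Künneth component `⊗ H ^ 1 (C_i) ^ (⊗ k_i)` of the cohomology of `∏ C_i ^ k_i`. -/
noncomputable def partialSum {r d : ℕ} {g : Fin r → ℕ} (e : (Σ i, Fin (2 * g i + 1)) ≃ Fin d) (m : Fin d → ℕ) (k : Fin r → ℕ) (w : ℕ → ℂ) (τ : ℝ) (x : ℕ) : ℂ :=
  ∑ p ∈ (range (x + 1)).filter (fun p => p.Prime ∧ p ≠ 2),
    w p * ((∏ i, ((trace p (block e m i) : ℝ) / √p) ^ k i - ∏ i, mu (k i) : ℝ) : ℂ) * Complex.exp (((-(τ * Real.log p) : ℝ) : ℂ) * Complex.I)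

/-- The digit number `i` (counted from the right, beginning with `0`) of `n` in base `b`. -/
def digit (b i n : ℕ) : ℕ := n / b ^ i % b

/-- The number which arises from the number `N` with at most `K` digits in base `b`, if for every `i ∈ S`
the digit number `i` is replaced by `f i`. -/
def change (b K N : ℕ) (f : ℕ → ℕ) (S : Finset ℕ) : ℕ :=
  ∑ i ∈ range K, (if i ∈ S then f i else digit b i N) * b ^ i

open Classical in
/-- The number of the choices of `s l` of `K l` positions for all `l < d` for which the vector of the numbers obtained by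
changing the digits of the `N l` at the chosen positions (according to `f l`) does not have the property `E`. -/
noncomputable def exceptions {d : ℕ} (b : ℕ) (K s N : Fin d → ℕ) (f : Fin d → ℕ → ℕ) (E : (Fin d → ℕ) → Prop) : ℕ :=
  ((Fintype.piFinset (fun l => powersetCard (s l) (range (K l)))).filter
    (fun S => ¬ E (fun l => change b (K l) (N l) (f l) (S l)))).card

open Pool.Agent.X22.ND (op mem_op mzd_law absorb hp norm_hp mean_mono cardop_le sum_inv_sqrt)
open Pool.Agent.X22.HE (tz tz_bound)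
open Pool.Agent.TH894.NE (mean mean_mul mean_const)

section
variable {r d : ℕ} {g : Fin r → ℕ} (e : (Σ i, Fin (2 * g i + 1)) ≃ Fin d) (k : Fin r → ℕ)

/-- the product of the powers of the normalised traces -/
noncomputable def pr (p : ℕ) (m : Fin d → ℕ) : ℝ := ∏ i, ((trace p (block e m i) : ℝ) / √p) ^ k i

lemma pr_mod (p : ℕ) (m : Fin d → ℕ) : pr e k p m = pr e k p (fun l => m l % p) := by
  unfold pr
  apply prod_congr rfl
  intro i _
  congr 3
  unfold trace block
  simp only [ZMod.natCast_mod]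

/-- a bound for the products -/
noncomputable def T (g : Fin r → ℕ) : ℝ := ∏ i, (2 * (g i : ℝ) + 1) ^ (2 * g i + 1)

lemma T_pos (g : Fin r → ℕ) : 0 < T g := prod_pos (fun i _ => by positivity)

lemma pr_bound (hk : ∀ i, k i ≤ 2 * g i + 1) (p : ℕ) (hp' : p.Prime) (h2 : p ≠ 2) (m : Fin d → ℕ) : |pr e k p m| ≤ T g := by
  have hf : Fact p.Prime := ⟨hp'⟩
  have hp0 : (0 : ℝ) < p := by exact_mod_cast hp'.pos
  have hs0 : 0 < √(p : ℝ) := Real.sqrt_pos.2 hp0
  unfold pr T
  rw [abs_prod]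
  apply prod_le_prod (fun i _ => abs_nonneg _)
  intro i _
  have h1 : |(trace p (block e m i) : ℝ)| ≤ 2 * g i * √p := tz_bound h2 (fun j : Fin (2 * g i + 1) => ((block e m i j : ℕ) : ZMod p))
  rw [abs_pow]
  have h3 : |(trace p (block e m i) : ℝ) / √p| ≤ 2 * g i + 1 := by
    rw [abs_div, abs_of_pos hs0, div_le_iff₀ hs0]
    have : 0 ≤ √(p : ℝ) := hs0.le
    linarith
  calc |(trace p (block e m i) : ℝ) / √p| ^ k i ≤ (2 * (g i : ℝ) + 1) ^ k i := pow_le_pow_left₀ (abs_nonneg _) h3 _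
    _ ≤ (2 * (g i : ℝ) + 1) ^ (2 * g i + 1) := by
        apply pow_le_pow_right₀ _ (hk i)
        have : (0 : ℝ) ≤ g i := Nat.cast_nonneg _
        linarith

end

/-- **Tate classes on products of powers of curves.** Let a base `b ≥ 2`, integers `r ≥ 1` and `g_i ≥ 0` (`i = 1, ..., r`), `A ≥ 0` and `δ > 0` be given; let `d` be the number `∑ (2 g_i + 1)` of all the
coefficients of `r` monic polynomials of the degrees `2 g_i + 1`. There are `c > 0` and `y₀` such that for all integers `s l`, `K l` (`l < d`), `y` with `2 s l ≤ K l` and `y ≥ y₀` the following holds.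

Let `0 ≤ N l < b ^ K l` be arbitrary integers, prescribe for every position `j` a digit `a l j` different from the digit of
`N l` in base `b`, and let `Λ x` be for every `x` any set of at most `x ^ A` functions `w` with `|w (p)| ≤ 1`.
If one chooses `s l` of the `K l` positions and replaces the digits of `N l` at these positions, then for all but at most a proportion
`1 / y ^ A` of the choices the `r` curves `C_i : Y ^ 2 = X ^ (2 g_i + 1) + ⋯` whose coefficients are the numbers `m l` obtained have the following property: for all integers `x` with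
`y ≤ x ≤ exp (c s l)` for all `l`, all `w ∈ Λ x`, all exponents `k_i ≤ 2 g_i + 1` and all real `τ` with `|τ| ≤ x ^ A`
`|∑ w (p) (∏ (a_p (C_i) / √p) ^ k_i - ∏ μ_(k_i)) p ^ (- i τ)| ≤ x ^ (1 / 2 + δ)`, the sum running over the odd primes `p ≤ x`. -/
theorem result (b r d : ℕ) (hb : 2 ≤ b) (hr : 1 ≤ r) (g : Fin r → ℕ) (e : (Σ i, Fin (2 * g i + 1)) ≃ Fin d) (δ : ℝ) (hδ : 0 < δ) (A : ℕ) :
    ∃ c : ℝ, 0 < c ∧ ∃ y₀ : ℕ,
    ∀ (K s : Fin d → ℕ) (y : ℕ), (∀ l, 2 * s l ≤ K l) → y₀ ≤ y →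
    ∀ N : Fin d → ℕ, (∀ l, N l < b ^ K l) → ∀ a : Fin d → ℕ → ℕ, (∀ l j, a l j < b ∧ a l j ≠ digit b j (N l)) →
    ∀ (κ : Type) (w : κ → ℕ → ℂ) (Λ : ℕ → Finset κ), (∀ i p, ‖w i p‖ ≤ 1) → (∀ x, (Λ x).card ≤ x ^ A) →
      (exceptions b K s N a (fun m => ∀ x : ℕ, y ≤ x → (∀ l, (x : ℝ) ≤ Real.exp (c * s l)) → ∀ i ∈ Λ x,
        ∀ k : Fin r → ℕ, (∀ j, k j ≤ 2 * g j + 1) → ∀ τ : ℝ, |τ| ≤ (x : ℝ) ^ A → ‖partialSum e m k (w i) τ x‖ ≤ (x : ℝ) ^ (1 / 2 + δ)) : ℝ) ≤
        1 / (y : ℝ) ^ A * ∏ l, ((K l).choose (s l) : ℝ) := by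
  classical
  have hd : 1 ≤ d := by
    have := (e ⟨⟨0, hr⟩, ⟨0, by omega⟩⟩).2
    omega
  obtain ⟨KS, hKS⟩ : ∃ KS : Finset (Fin r → ℕ), KS = Fintype.piFinset (fun i => range (2 * g i + 2)) := ⟨_, rfl⟩
  have hmem : ∀ k : Fin r → ℕ, k ∈ KS ↔ ∀ j, k j ≤ 2 * g j + 1 := by
    intro k
    rw [hKS, Fintype.mem_piFinset]
    simp only [mem_range]
    exact forall_congr' (fun j => by omega)
  -- the constants
  have hj : ∀ k : Fin r → ℕ, ∃ C : ℝ, 0 ≤ C ∧ (k ∈ KS → ∀ (p : ℕ) (hp : p.Prime), p ≠ 2 → |mean d p (fun m => pr e k p m) - ∏ i, mu (k i)| ≤ C / p) := by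
    intro k
    by_cases hk : k ∈ KS
    · obtain ⟨C, hC, h⟩ := Pool.Agent.X22.MO.joint g k ((hmem k).1 hk)
      exact ⟨C, hC, fun _ p hp' h2 => h p hp' h2 d e⟩
    · exact ⟨0, le_rfl, fun h => absurd h hk⟩
  choose C hC hCj using hj
  obtain ⟨C₂, hC₂⟩ : ∃ C₂, C₂ = ∑ k ∈ KS, C k := ⟨_, rfl⟩
  have hC₂0 : 0 ≤ C₂ := by
    rw [hC₂]
    exact sum_nonneg (fun k _ => hC k)
  have hCk : ∀ k ∈ KS, C k ≤ C₂ := by
    intro k hk
    rw [hC₂]
    exact single_le_sum (fun k _ => hC k) hk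
  obtain ⟨U, hU⟩ : ∃ U, U = ∑ k ∈ KS, |∏ i, mu (k i)| := ⟨_, rfl⟩
  have hU0 : 0 ≤ U := by
    rw [hU]
    exact sum_nonneg (fun k _ => abs_nonneg _)
  have hUk : ∀ k ∈ KS, |∏ i, mu (k i)| ≤ U := by
    intro k hk
    rw [hU]
    exact single_le_sum (f := fun k : Fin r → ℕ => |∏ i, mu (k i)|) (fun k _ => abs_nonneg _) hk
  obtain ⟨W, hW⟩ : ∃ W, W = T g + U + 4 * C₂ := ⟨_, rfl⟩
  have hT0 := T_pos g
  have hW0 : 0 < W := by
    rw [hW]
    positivity
  have hTW : T g + U ≤ W := by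
    rw [hW]
    linarith
  obtain ⟨B, hB⟩ : ∃ B : ℕ, KS.card ≤ 2 ^ B := ⟨KS.card, (Nat.lt_two_pow_self).le⟩
  obtain ⟨c, hc, y₀, h⟩ := mzd_law b d hb hd (δ / 2) (by positivity) A (A + B) A
  obtain ⟨x₁, hx₁⟩ := absorb W (δ / 2) hW0.le (by positivity)
  refine ⟨c, hc, y₀ + x₁ + 2, fun K s y hsK hy N hN a ha κ w Λ hw hΛ => ?_⟩
  have h2 := h K s y hsK (by omega) N hN a ha (κ × (Fin r → ℕ)) (fun x => Λ x ×ˢ KS) (fun x hx => by
      show (Λ x ×ˢ KS).card ≤ _
      rw [card_product, pow_add]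
      exact Nat.mul_le_mul (hΛ x) (hB.trans (Nat.pow_le_pow_left hx B)))
    (fun x q p m => w q.1 p * ((pr e q.2 p m - ∏ i, mu (q.2 i) : ℝ) : ℂ)) (fun x q p m _ => by
      show w q.1 p * ((pr e q.2 p m - ∏ i, mu (q.2 i) : ℝ) : ℂ) = w q.1 p * ((pr e q.2 p (fun i => m i % p) - ∏ i, mu (q.2 i) : ℝ) : ℂ)
      rw [← pr_mod])
    (fun x _ => W * Real.sqrt x) (fun x _ q _ => by positivity) ?_ ?_ ?_
    (fun m => ∀ x : ℕ, y ≤ x → (∀ l, (x : ℝ) ≤ Real.exp (c * s l)) → ∀ i ∈ Λ x,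
        ∀ k : Fin r → ℕ, (∀ j, k j ≤ 2 * g j + 1) → ∀ τ : ℝ, |τ| ≤ (x : ℝ) ^ A → ‖partialSum e m k (w i) τ x‖ ≤ (x : ℝ) ^ (1 / 2 + δ)) ?_
  · unfold exceptions
    exact h2
  · -- the bound
    intro x hx q hq p hp' m
    rw [mem_op] at hp'
    rw [mem_product] at hq
    have hs : 1 ≤ Real.sqrt x := by
      rw [Real.one_le_sqrt]
      exact_mod_cast (by omega : 1 ≤ x)
    rw [norm_mul, Complex.norm_real, Real.norm_eq_abs]
    have h3 : |pr e q.2 p m - ∏ i, mu (q.2 i)| ≤ W := by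
      refine (abs_sub _ _).trans ?_
      have := pr_bound e q.2 ((hmem _).1 hq.2) p hp'.2.1 hp'.2.2 m
      have := hUk q.2 hq.2
      linarith
    calc ‖w q.1 p‖ * |pr e q.2 p m - ∏ i, mu (q.2 i)| ≤ 1 * W := by
          have := hw q.1 p
          gcongr
      _ ≤ W * Real.sqrt x := by
          rw [one_mul]
          exact le_mul_of_one_le_right hW0.le hs
  · -- the means
    intro x hx q hq
    rw [mem_product] at hq
    have h3 : ∀ p ∈ op x, |mean d p (fun m => (w q.1 p * ((pr e q.2 p m - ∏ i, mu (q.2 i) : ℝ) : ℂ)).re)| +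
        |mean d p (fun m => (w q.1 p * ((pr e q.2 p m - ∏ i, mu (q.2 i) : ℝ) : ℂ)).im)| ≤ 2 * C₂ * (1 / Real.sqrt p) := by
      intro p hp'
      rw [mem_op] at hp'
      have hp1 : (1 : ℝ) ≤ p := by exact_mod_cast hp'.2.1.one_lt.le
      have hsq : Real.sqrt p ≤ p := by
        rw [Real.sqrt_le_left (by linarith)]
        nlinarith
      have hsp : 0 < Real.sqrt p := Real.sqrt_pos.2 (by linarith)
      have hm1 : mean d p (fun m => pr e q.2 p m - ∏ i, mu (q.2 i)) = mean d p (fun m => pr e q.2 p m) - ∏ i, mu (q.2 i) := by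
        have e1 : (fun m => pr e q.2 p m - ∏ i, mu (q.2 i)) = fun m => pr e q.2 p m + (-∏ i, mu (q.2 i)) := by
          funext m
          ring
        rw [e1, Pool.Agent.X22.ND.mean_add', mean_const d p hp'.2.1.one_lt.le]
        ring
      have h4 : |mean d p (fun m => pr e q.2 p m - ∏ i, mu (q.2 i))| ≤ C₂ * (1 / Real.sqrt p) := by
        rw [hm1]
        refine (hCj q.2 hq.2 p hp'.2.1 hp'.2.2).trans ?_
        rw [div_eq_mul_one_div]
        have := hCk q.2 hq.2
        gcongr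
      have e1 : (fun m => (w q.1 p * ((pr e q.2 p m - ∏ i, mu (q.2 i) : ℝ) : ℂ)).re) = fun m => (w q.1 p).re * (pr e q.2 p m - ∏ i, mu (q.2 i)) := by
        funext m
        rw [Complex.re_mul_ofReal]
      have e2 : (fun m => (w q.1 p * ((pr e q.2 p m - ∏ i, mu (q.2 i) : ℝ) : ℂ)).im) = fun m => (w q.1 p).im * (pr e q.2 p m - ∏ i, mu (q.2 i)) := by
        funext m
        rw [Complex.im_mul_ofReal]
      rw [e1, e2, mean_mul, mean_mul, abs_mul, abs_mul]
      have h5 := (Complex.abs_re_le_norm (w q.1 p)).trans (hw q.1 p)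
      have h6 := (Complex.abs_im_le_norm (w q.1 p)).trans (hw q.1 p)
      have h7 : 0 ≤ |mean d p (fun m => pr e q.2 p m - ∏ i, mu (q.2 i))| := abs_nonneg _
      nlinarith
    refine (sum_le_sum h3).trans ?_
    rw [← mul_sum]
    have h6 := sum_inv_sqrt x
    calc 2 * C₂ * ∑ p ∈ op x, 1 / Real.sqrt p ≤ 2 * C₂ * (2 * Real.sqrt x) := by gcongr
      _ ≤ W * Real.sqrt x := by
          rw [hW]
          have : 0 ≤ (T g + U) * Real.sqrt x := by positivity
          nlinarith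
  · -- the variance
    intro x hx q hq
    rw [mem_product] at hq
    have hone : ∀ p ∈ op x, mean d p (fun m => ‖w q.1 p * ((pr e q.2 p m - ∏ i, mu (q.2 i) : ℝ) : ℂ)‖ ^ 2) ≤ W ^ 2 := by
      intro p hp'
      rw [mem_op] at hp'
      have h3 := mean_mono d p (fun m => ‖w q.1 p * ((pr e q.2 p m - ∏ i, mu (q.2 i) : ℝ) : ℂ)‖ ^ 2) (fun _ => W ^ 2) (fun m => by
        apply pow_le_pow_left₀ (norm_nonneg _)
        rw [norm_mul, Complex.norm_real, Real.norm_eq_abs]
        have h3 : |pr e q.2 p m - ∏ i, mu (q.2 i)| ≤ W := by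
          refine (abs_sub _ _).trans ?_
          have := pr_bound e q.2 ((hmem _).1 hq.2) p hp'.2.1 hp'.2.2 m
          have := hUk q.2 hq.2
          linarith
        calc ‖w q.1 p‖ * |pr e q.2 p m - ∏ i, mu (q.2 i)| ≤ 1 * W := by
              have := hw q.1 p
              gcongr
          _ = W := one_mul _)
      rwa [mean_const d p hp'.2.1.one_lt.le] at h3
    refine (sum_le_sum hone).trans ?_
    rw [sum_const, nsmul_eq_mul, mul_pow, Real.sq_sqrt (Nat.cast_nonneg x), mul_comm]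
    have h4 := cardop_le x
    gcongr
  · -- the conclusion
    intro m hm x hyx hxr i hi k hk τ hτ
    have hx0 : (0 : ℝ) < x := by exact_mod_cast (by omega : 0 < x)
    have hx1 : (1 : ℝ) ≤ x := by exact_mod_cast (by omega : 1 ≤ x)
    have hlx0 : 0 ≤ Real.log x := Real.log_natCast_nonneg x
    have h3 := hm x hyx hxr (i, k) (mem_product.2 ⟨hi, (hmem k).2 hk⟩) τ hτ
    have e1 : partialSum e m k (w i) τ x = ∑ p ∈ op x, w i p * ((pr e k p m - ∏ i, mu (k i) : ℝ) : ℂ) * hp τ p := by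
      have hset : (range (x + 1)).filter (fun p => p.Prime ∧ p ≠ 2) = op x := by
        ext p
        rw [mem_filter, mem_range, mem_op]
        constructor
        · rintro ⟨h5, h6⟩
          exact ⟨by omega, h6⟩
        · rintro ⟨h5, h6⟩
          exact ⟨by omega, h6⟩
      unfold partialSum
      rw [hset]
      rfl
    rw [e1]
    refine h3.trans ?_
    have h6 := hx₁ x (by omega)
    have hpow : (x : ℝ) ^ (1 / 2 + δ) = Real.sqrt x * ((x : ℝ) ^ (δ / 2) * (x : ℝ) ^ (δ / 2)) := by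
      rw [← Real.rpow_add hx0, Real.sqrt_eq_rpow, ← Real.rpow_add hx0]
      congr 1
      ring
    rw [hpow]
    have h7 : W ≤ (x : ℝ) ^ (δ / 2) := by
      refine le_trans ?_ h6
      have : 0 ≤ W * Real.log x := by positivity
      linarith
    calc W * Real.sqrt x * (x : ℝ) ^ (δ / 2) = Real.sqrt x * (W * (x : ℝ) ^ (δ / 2)) := by ring
      _ ≤ _ := by gcongr

end Pool.Agent.Results.MP_223b32_ag.FewDigitCurvePowers
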