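import Pool.Agent.X303.Five
import Pool.Agent.X303.Pole

/-!
# Poles of the L-functions of the smooth projective varieties over finite fields generated by
abelian varieties of dimension at most five and by products of elliptic curves and abelian surfaces

Over an algebraic closure of the field with `p` elements each abelian variety is isogenous to the
reduction of an abelian variety of CM type (Honda, Tate). So an abelian variety over the field with
`p ^ a` elements is modelled by `RedAV`: a finite product of CM types `(E i, Φ i)` with Weil numbers
`π i ∈ E i` that satisfy the formula of Shimura and Taniyama; its cohomology of degree `n`, with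
coefficients in the field `Ω` of the complex numbers, consists of the alternating `n`-forms on
`Ω ⊗ H_1`, on which the Frobenius endomorphism acts by `π`.

We consider (`IsFiveOrSurfaces`) the following abelian varieties `Y`, with any Newton polygons: **all
abelian varieties of dimension at most five**, and **all products of elliptic curves and abelian
surfaces** (over an algebraic closure and up to isogeny).

`Homology Ω V` are data of motivic homology `M X i j = H_i^M(X, ℚ(j))` (higher Chow groups) and of
`ℓ`-adic homology `E X i j = H_i(X, ℚ_ℓ(j))` (coefficients extended to `Ω = ℂ`) of schemes `X` over a
finite field, with the Frobenius and the regulator. The class `Generated` contains the schemes with the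
homology groups of the abelian varieties above (`IsFiveOrSurfaces`), it contains the schemes whose motives
are direct summands of finite sums of twists of motives of members, and it contains all of `Z`, `X`,
`U = X ∖ Z` if it contains two of them. For instance it contains all products of curves of genus at
most two, their symmetric powers, the Hilbert schemes of points on products of two such curves and on
abelian and Kummer surfaces, projective and flag bundles over such varieties, blow-ups, and so on.

The theorem: let `X` be a smooth projective scheme of pure dimension `d`, over the field `k` with `q` elements, of
this class. Let `W` be the group `H^(2 j)(X, ℚ_ℓ) ⊗ ℂ` with the Frobenius endomorphism `F`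
(`IsCohomologyOf`). As `k` is finite, `dim_a (k) = 0` and `L (s) = det (1 - F q ^ (-s) | W)⁻¹`
(`lfun q F`, for `U = Spec k`). The cycle class map `cl^j` on
`CH^j(X) ⊗ ℚ = H_(2 (d - j))^M(X, ℚ(d - j)) = M X (2 (d - j)) (d - j)` is injective, so that the rank of its
image `A^j(X)` is the dimension of this space, and it is finite. The order of `L` at `s = j` is
`- rank A^j(X)`.

Properties of the theory of cycles that are used for the abelian varieties `Y` (`IsChowS`,
`IsMotivic`): Poincaré duality, the formal properties of correspondences, the nilpotence of
homologically trivial correspondences (Kimura), the operation of the Frobenius endomorphism on higher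
Chow groups, the vanishing of the higher rational `K`-groups of a finite field (Quillen), and the
algebraicity of the classes in `AlgS` (theorems of Tate, Markman and Ramón Marí). The Tate conjecture
for the abelian varieties `Y` (all Tate classes belong to `AlgS`) is proved in the starting files. The
passage from the Tate conjecture to all degrees is due to Soulé, Geisser, Kahn and Jannsen.
-/

set_option autoImplicit false

namespace Pool.Agent.Results.MP_223b32_ag.FiveAndSurfaces

open Module Pool.Agent.W495.TA Pool.Agent.W495.FM Pool.Agent.X303.TBDual

/-- The order of the pole of `L` is the rank of `A^j(X)` for all smooth projective `X` of the class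
generated by these abelian varieties. -/
theorem result (p : ℕ) [Fact p.Prime] (ν : PadicAlgCl p ≃+* ℂ) (V : Type) (T : Homology ℂ V)
    (hT : IsHomology T) (X : V) (hX : Generated T (IsFiveOrSurfaces p ν T) X) (d j q : ℕ)
    (hq : 1 < q) (W : Type) [AddCommGroup W] [Module ℂ W] (F : W →ₗ[ℂ] W)
    (hW : IsCohomologyOf T X d j q F) : (∀ x y : T.M X (2 * (d - j)) (d - j), T.reg X _ _ x =
    T.reg X _ _ y → x = y) ∧ FiniteDimensional ℚ (T.M X (2 * (d - j)) (d - j)) ∧
    meromorphicOrderAt (lfun q F) (j : ℂ) = ((-(finrank ℚ (T.M X (2 * (d - j)) (d - j)) : ℤ) : ℤ)
    : WithTop ℤ) :=
  ⟨fun _ _ hxy => reg_injective (tb_five hT hX) hT hxy, finite_M hT (tb_five hT hX) _ _,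
    pole_smooth hT (tb_five hT hX) hq F hW⟩

end Pool.Agent.Results.MP_223b32_ag.FiveAndSurfaces
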