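import Pool.Agent.X208.SP.ZetaMain

/-!
# Poles of zeta functions and cycles on `Y × Sym ^ n X`

Let `k` be an algebraic closure of a finite field and let `W` be a Weil cohomology theory with an
action of a group `Γ` with the formal properties of a Galois action, for example the `ℓ`-adic
cohomology of smooth projective varieties which are defined over a finite field, with
`Γ` generated by the Frobenius `g` over this field, `χ(g) = q`. The classes and the cycles on
`Y × Sym ^ n X` are those on `Y × X ^ n` which are symmetric in the factors `X`. Let

* `o^j(n)` be the number of the eigenvalues `ζ q ^ j` of `g`, `ζ` any root of unity, with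
  multiplicities, on the classes of degree `2 j` on `Y × Sym ^ n X` (`poleOrder`): this is the order of
  the pole at `s = j` of the `L`-function of `H^(2 j)` over any sufficiently large finite field;
* `r^j(n)` be the rank of the group of the cycles of codimension `j` modulo numerical equivalence
  (`symRank`), and `h^j(n)` the dimension of the space of their classes (`symDim`).

So `r^j(n) ≤ h^j(n) ≤ o^j(n)`. The strong Tate conjecture for `X` says that for all `j` the rank of the
cycles of codimension `j` on `X` modulo numerical equivalence is the order of the pole. We prove: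

* if the strong Tate conjecture fails for `X` then for some `c ≤ dim X` and for all `Y`, `n` and `j`:
  `r^(j + c)(n + 1) + h^j(n) ≤ o^(j + c)(n + 1)`;
* so if for one `Y` and some `ε > 0` the sum of the `r^j(n)` over `j` is at least `1 / 2 + ε` times
  the sum of the `o^j(n)`, for all large `n`, then the strong Tate conjecture holds for `X`;
* the strong Tate conjecture holds for all powers of `X` if and only if for all `m` the second
  condition holds for `X × Sym ^ n (X ^ m)`.
-/

open Pool.Agent.H914 Pool.Agent.H914.VarClass.Obj Pool.Agent.H914.WeilCohomology
  Pool.Agent.Y132.AH Pool.Agent.X208.SP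
open Pool.Agent.Y133.Half (pw)

universe u

namespace Pool.Agent.Results.MP_223b32_ag.PolesOnSymmetricPowers

theorem result {k : Type u} [Field k] {𝒱 : VarClass k} {ops : CycleOps 𝒱}
    {W : WeilCohomology.{u, 0} ops} {Γ : Type} [Group Γ] (G : GaloisData W Γ) (g : Γ)
    (X : 𝒱.Obj) :
    (¬ StrongTate G g X → ∃ c ≤ X.dim, ∀ (Y : 𝒱.Obj) (n j : ℕ),
      symRank ops Y X (n + 1) (j + c) + symDim W Y X n j ≤ poleOrder G g Y X (n + 1) (j + c)) ∧
    (∀ Y : 𝒱.Obj, (1 : W.H Y) ≠ 0 → MoreThanHalf Y X (symRank ops Y X) (poleOrder G g Y X) →
      StrongTate G g X) ∧
    ((∀ n, StrongTate G g (pw X n)) ↔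
      ∀ m, MoreThanHalf X (pw X m) (symRank ops X (pw X m)) (poleOrder G g X (pw X m))) :=
  zeta_law G g X

end Pool.Agent.Results.MP_223b32_ag.PolesOnSymmetricPowers
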